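import Pool.Agent.V8H20.CR.Main

/-!
# The colour-counting inequality with a clique
-/

set_option autoImplicit false

open Finset

namespace Pool.Agent.V8H20.CR


theorem card_coloring (V C : Type) [Fintype V] [Fintype C] (G : SimpleGraph V) :
    Nat.card (G.Coloring C) = (Om G (fun _ : V => (univ : Finset C))).card := by
  classical
  have e : G.Coloring C ≃ (Om G (fun _ : V => (univ : Finset C))) :=
    { toFun := fun c => ⟨fun v => c v, mem_Om.2 ⟨fun v => mem_univ _, fun u v h => c.valid h⟩⟩
      invFun := fun f => SimpleGraph.Coloring.mk f.1 (fun {u v} h => (mem_Om.1 f.2).2 u v h)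
      left_inv := fun c => by ext v; rfl
      right_inv := fun f => by ext v; rfl }
  rw [Nat.card_congr e, Nat.card_eq_fintype_card, Fintype.card_coe]

theorem card_avoid (V : Type) [Fintype V] (m : ℕ) (G : SimpleGraph V) (x : Fin (m + 1)) :
    (Om G (fun _ : V => (univ : Finset (Fin (m + 1))).erase x)).card =
      (Om G (fun _ : V => (univ : Finset (Fin m)))).card := by
  classical
  symm
  refine card_bij (fun f _ v => x.succAbove (f v)) ?_ ?_ ?_
  · intro f hf
    rw [mem_Om] at hf ⊢
    exact ⟨fun v => mem_erase.2 ⟨Fin.succAbove_ne x _, mem_univ _⟩,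
      fun u v h h' => hf.2 u v h (Fin.succAbove_right_injective h')⟩
  · intro f _ g _ h
    funext v
    exact Fin.succAbove_right_injective (congrFun h v)
  · intro g hg
    rw [mem_Om] at hg
    have h1 : ∀ v, ∃ y, x.succAbove y = g v := fun v =>
      Fin.exists_succAbove_eq (mem_erase.1 (hg.1 v)).1
    choose f hf using h1
    refine ⟨f, ?_, funext hf⟩
    rw [mem_Om]
    exact ⟨fun v => mem_univ _, fun u v h h' => hg.2 u v h (by rw [← hf, ← hf, h'])⟩

theorem clique_ineq (V : Type) [Fintype V] (m : ℕ) (G : SimpleGraph V) (K : Finset V)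
    (hK : G.IsClique (K : Set V)) (hn : Fintype.card V ≤ m + 1) :
    ((m + 1 : ℕ) : ℝ) * (Nat.card (G.Coloring (Fin m)) : ℝ) ≤
      (1 - 1 / ((m + 1 : ℕ) : ℝ)) ^ (Fintype.card V - K.card) *
        ((((m + 1 : ℕ) : ℝ) - K.card) * (Nat.card (G.Coloring (Fin (m + 1))) : ℝ)) := by
  classical
  rw [card_coloring, card_coloring]
  set L : Fin (m + 1) → V → Finset (Fin (m + 1)) :=
    fun x v => if v ∈ K then univ.erase x else univ with hL
  have h1 : ∀ x : Fin (m + 1),
      ((Om G (fun _ : V => (univ : Finset (Fin m)))).card : ℝ) ≤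
        (1 - 1 / ((m + 1 : ℕ) : ℝ)) ^ (Fintype.card V - K.card) * ((Om G (L x)).card : ℝ) := by
    intro x
    rw [← card_avoid V m G x]
    have h2 := remove (Fintype.card V - K.card) G (L x) (univ.erase x) x (fun v => by
      simp only [hL]
      split_ifs
      · exact Subset.refl _
      · exact subset_univ _) (notMem_erase _ _) (by
        rw [card_erase_of_mem (mem_univ _), card_univ, Fintype.card_fin]; omega) (by
        have h3 : univ.filter (fun v => x ∈ L x v) = Kᶜ := by
          ext v
          rw [mem_filter, mem_compl]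
          simp only [hL, mem_univ, true_and]
          split_ifs with h
          · simp [h]
          · simp [h]
        rw [h3, card_compl])
    rw [Fintype.card_fin] at h2
    have h4 : (fun v => (L x v).erase x) = fun _ : V => (univ : Finset (Fin (m + 1))).erase x := by
      funext v
      simp only [hL]
      split_ifs
      · simp
      · rfl
    rw [h4] at h2
    exact h2
  have h5 : ∑ x : Fin (m + 1), ((Om G (L x)).card : ℝ) =
      (((m + 1 : ℕ) : ℝ) - K.card) *
        ((Om G (fun _ : V => (univ : Finset (Fin (m + 1))))).card : ℝ) := by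
    have h6 : ∀ x, (Om G (L x)) =
        (Om G (fun _ : V => (univ : Finset (Fin (m + 1))))).filter (fun f => x ∉ K.image f) := by
      intro x
      ext f
      rw [mem_filter, mem_Om, mem_Om]
      constructor
      · rintro ⟨h7, h8⟩
        refine ⟨⟨fun v => mem_univ _, h8⟩, fun h9 => ?_⟩
        obtain ⟨v, hv, hvx⟩ := mem_image.1 h9
        have := h7 v
        simp only [hL] at this
        rw [if_pos hv] at this
        exact (mem_erase.1 this).1 hvx
      · rintro ⟨⟨_, h8⟩, h9⟩
        refine ⟨fun v => ?_, h8⟩
        simp only [hL]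
        split_ifs with hv
        · exact mem_erase.2 ⟨fun h => h9 (mem_image.2 ⟨v, hv, h⟩), mem_univ _⟩
        · exact mem_univ _
    have h7 : ∑ x : Fin (m + 1), (Om G (L x)).card + 
        K.card * (Om G (fun _ : V => (univ : Finset (Fin (m + 1))))).card =
      (m + 1) * (Om G (fun _ : V => (univ : Finset (Fin (m + 1))))).card := by
      simp_rw [h6, card_filter]
      rw [sum_comm, mul_comm K.card, ← smul_eq_mul, ← sum_const, ← sum_add_distrib,
        mul_comm (m + 1), ← smul_eq_mul, ← sum_const]
      refine sum_congr rfl fun f hf => ?_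
      rw [← card_filter]
      have h8 : univ.filter (fun x => x ∉ K.image f) = (K.image f)ᶜ := by
        ext x; simp
      rw [h8, card_compl, Fintype.card_fin]
      have h9 : (K.image f).card = K.card := by
        apply card_image_of_injOn
        intro u hu v hv huv
        by_contra hne
        exact (mem_Om.1 hf).2 u v (hK hu hv hne) huv
      have h10 : (K.image f).card ≤ m + 1 := by
        have := card_le_univ (K.image f)
        rwa [Fintype.card_fin] at this
      rw [h9] at h10 ⊢
      omega
    have h8 : (∑ x : Fin (m + 1), ((Om G (L x)).card : ℝ)) + 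
        (K.card : ℝ) * ((Om G (fun _ : V => (univ : Finset (Fin (m + 1))))).card : ℝ) =
      ((m + 1 : ℕ) : ℝ) * ((Om G (fun _ : V => (univ : Finset (Fin (m + 1))))).card : ℝ) := by
      exact_mod_cast h7
    linarith
  calc ((m + 1 : ℕ) : ℝ) * ((Om G (fun _ : V => (univ : Finset (Fin m)))).card : ℝ)
      = ∑ x : Fin (m + 1), ((Om G (fun _ : V => (univ : Finset (Fin m)))).card : ℝ) := by
        rw [sum_const, card_univ, Fintype.card_fin, nsmul_eq_mul]
    _ ≤ ∑ x : Fin (m + 1), (1 - 1 / ((m + 1 : ℕ) : ℝ)) ^ (Fintype.card V - K.card) *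
        ((Om G (L x)).card : ℝ) := sum_le_sum fun x _ => h1 x
    _ = _ := by rw [← mul_sum, h5]


end Pool.Agent.V8H20.CR
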