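import Mathlib

/-!
# List colourings: a colour is used often enough

`Om G L` is the set of the proper colourings of `G` with colours from the lists `L v`.
-/

set_option autoImplicit false

namespace Pool.Agent.V8H20.CR

open Finset

open scoped Classical in
/-- the proper colourings of `G` with `f v ∈ L v` for all `v` -/
noncomputable def Om {V C : Type} [Fintype V] [Fintype C] (G : SimpleGraph V)
    (L : V → Finset C) : Finset (V → C) :=
  univ.filter (fun f => (∀ v, f v ∈ L v) ∧ ∀ u v, G.Adj u v → f u ≠ f v)

section

variable {V C : Type} [Fintype V] [Fintype C] [DecidableEq V] [DecidableEq C]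

omit [DecidableEq V] [DecidableEq C] in
theorem mem_Om {G : SimpleGraph V} {L : V → Finset C} {f : V → C} :
    f ∈ Om G L ↔ (∀ v, f v ∈ L v) ∧ ∀ u v, G.Adj u v → f u ≠ f v := by
  simp [Om]

/-- the number of vertices of `W` with colour `c` -/
def cnt (W : Finset V) (c : C) (f : V → C) : ℕ := (W.filter (fun v => f v = c)).card

/-- the graph without the edges at `v` -/
def del (G : SimpleGraph V) (v : V) : SimpleGraph V where
  Adj a b := G.Adj a b ∧ a ≠ v ∧ b ≠ v
  symm := ⟨fun _ _ h => ⟨h.1.symm, h.2.2, h.2.1⟩⟩
  loopless := ⟨fun a h => G.loopless.irrefl a h.1⟩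

open scoped Classical in
/-- the lists after `v` has got the colour `c` -/
noncomputable def pin (G : SimpleGraph V) (L : V → Finset C) (v : V) (c : C) : V → Finset C :=
  fun u => if u = v then {c} else if G.Adj v u then (L u).erase c else L u

/-- the lists after the colour `c` has been removed at `v` -/
def era (L : V → Finset C) (v : V) (c : C) : V → Finset C :=
  fun u => if u = v then (L u).erase c else L u

theorem pin_eq (G : SimpleGraph V) (L : V → Finset C) (v : V) (c : C) (hc : c ∈ L v) :
    (Om G L).filter (fun f => f v = c) = Om (del G v) (pin G L v c) := by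
  ext f
  simp only [mem_filter, mem_Om, del, pin]
  constructor
  · rintro ⟨⟨h1, h2⟩, h3⟩
    refine ⟨fun u => ?_, fun a b hab => h2 a b hab.1⟩
    split_ifs with h4 h5
    · subst h4; simp [h3]
    · rw [mem_erase]
      refine ⟨fun h6 => h2 v u h5 (by rw [h3, h6]), h1 u⟩
    · exact h1 u
  · rintro ⟨h1, h2⟩
    have h3 : f v = c := by
      have := h1 v
      simpa using this
    refine ⟨⟨fun u => ?_, fun a b hab => ?_⟩, h3⟩
    · have h4 := h1 u
      split_ifs at h4 with h5 h6
      · subst h5; rw [h3]; exact hc
      · exact (mem_erase.1 h4).2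
      · exact h4
    · by_cases ha : a = v
      · subst ha
        have hb : b ≠ a := hab.ne.symm
        have h4 := h1 b
        rw [if_neg hb, if_pos hab, mem_erase] at h4
        rw [h3]
        exact fun h => h4.1 h.symm
      · by_cases hb : b = v
        · subst hb
          have h4 := h1 a
          rw [if_neg ha, if_pos hab.symm, mem_erase] at h4
          rw [h3]
          exact h4.1
        · exact h2 a b ⟨hab, ha, hb⟩

theorem era_eq (G : SimpleGraph V) (L : V → Finset C) (v : V) (c : C) :
    (Om G L).filter (fun f => f v ≠ c) = Om G (era L v c) := by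
  ext f
  simp only [mem_filter, mem_Om, era]
  constructor
  · rintro ⟨⟨h1, h2⟩, h3⟩
    refine ⟨fun u => ?_, h2⟩
    split_ifs with h4
    · subst h4; exact mem_erase.2 ⟨h3, h1 u⟩
    · exact h1 u
  · rintro ⟨h1, h2⟩
    have h3 := h1 v
    rw [if_pos rfl, mem_erase] at h3
    refine ⟨⟨fun u => ?_, h2⟩, h3.1⟩
    have h4 := h1 u
    split_ifs at h4 with h5
    · exact (mem_erase.1 h4).2
    · exact h4

theorem sum_split (G : SimpleGraph V) (L : V → Finset C) (v : V) (c : C) (hc : c ∈ L v)
    (F : (V → C) → ℕ) :
    ∑ f ∈ Om G L, F f = ∑ f ∈ Om (del G v) (pin G L v c), F f + ∑ f ∈ Om G (era L v c), F f := by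
  rw [← pin_eq G L v c hc, ← era_eq G L v c]
  exact (sum_filter_add_sum_filter_not (Om G L) (fun f => f v = c) F).symm

/-- exchanging two colours which are in the same lists -/
theorem swap_sum (G : SimpleGraph V) (L : V → Finset C) (W : Finset V) (y z : C)
    (hiso : ∀ a b, G.Adj a b → a ∈ W) (hL : ∀ v ∈ W, (y ∈ L v ↔ z ∈ L v)) :
    ∑ f ∈ Om G L, cnt W y f = ∑ f ∈ Om G L, cnt W z f := by
  set φ : (V → C) → (V → C) := fun f v => if v ∈ W then Equiv.swap y z (f v) else f v with hφ
  have hinv : ∀ f, φ (φ f) = f := by
    intro f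
    funext v
    simp only [hφ]
    split_ifs with h
    · simp
    · rfl
  have hmem : ∀ f ∈ Om G L, φ f ∈ Om G L := by
    intro f hf
    rw [mem_Om] at hf ⊢
    refine ⟨fun v => ?_, fun a b hab => ?_⟩
    · simp only [hφ]
      split_ifs with h
      · by_cases h1 : f v = y
        · rw [h1, Equiv.swap_apply_left]
          exact (hL v h).1 (h1 ▸ hf.1 v)
        · by_cases h2 : f v = z
          · rw [h2, Equiv.swap_apply_right]
            exact (hL v h).2 (h2 ▸ hf.1 v)
          · rw [Equiv.swap_apply_of_ne_of_ne h1 h2]
            exact hf.1 v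
      · exact hf.1 v
    · simp only [hφ]
      rw [if_pos (hiso a b hab), if_pos (hiso b a hab.symm)]
      intro h
      exact hf.2 a b hab ((Equiv.swap y z).injective h)
  refine sum_nbij' φ φ hmem hmem (fun f _ => hinv f) (fun f _ => hinv f) (fun f _ => ?_)
  unfold cnt
  congr 1
  ext v
  simp only [mem_filter, hφ]
  constructor
  · rintro ⟨h1, h2⟩
    refine ⟨h1, ?_⟩
    rw [if_pos h1, h2, Equiv.swap_apply_left]
  · rintro ⟨h1, h2⟩
    refine ⟨h1, ?_⟩
    rw [if_pos h1] at h2
    rw [← Equiv.swap_apply_right y z] at h2
    exact (Equiv.swap y z).injective (by simpa using h2)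

/-- **A colour is used at most once on the average** if there are many colours without
restrictions. -/
theorem avg_le_one (G : SimpleGraph V) (L : V → Finset C) (W : Finset V) (T : Finset C) (y : C)
    (hiso : ∀ a b, G.Adj a b → a ∈ W) (hT : ∀ v ∈ W, T ⊆ L v) (hy : y ∉ T)
    (hc : W.card ≤ T.card + 1) :
    ∑ f ∈ Om G L, cnt W y f ≤ (Om G L).card := by
  set L' : V → Finset C := fun v => if v ∈ W then insert y (L v) else L v with hL'
  have hsub : Om G L ⊆ Om G L' := by
    intro f hf
    rw [mem_Om] at hf ⊢
    refine ⟨fun v => ?_, hf.2⟩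
    simp only [hL']
    split_ifs
    · exact mem_insert_of_mem (hf.1 v)
    · exact hf.1 v
  have hfull : ∑ f ∈ Om G L', cnt W y f ≤ (Om G L').card := by
    have h1 : ∀ z ∈ insert y T, ∑ f ∈ Om G L', cnt W z f = ∑ f ∈ Om G L', cnt W y f := by
      intro z hz
      refine swap_sum G L' W z y hiso (fun v hv => ?_)
      simp only [hL', if_pos hv]
      refine ⟨fun _ => mem_insert_self _ _, fun _ => ?_⟩
      rcases mem_insert.1 hz with h | h
      · rw [h]; exact mem_insert_self _ _
      · exact mem_insert_of_mem (hT v hv h)
    have h2 : (T.card + 1) * ∑ f ∈ Om G L', cnt W y f = ∑ f ∈ Om G L', ∑ z ∈ insert y T, cnt W z f := by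
      rw [sum_comm, sum_congr rfl h1, sum_const, card_insert_of_notMem hy, smul_eq_mul]
    have h3 : ∀ f : V → C, ∑ z ∈ insert y T, cnt W z f ≤ W.card := by
      intro f
      unfold cnt
      rw [← card_biUnion]
      · apply card_le_card
        intro v hv
        rw [mem_biUnion] at hv
        obtain ⟨z, _, hv⟩ := hv
        exact (mem_filter.1 hv).1
      · intro a _ b _ hab
        rw [Function.onFun, disjoint_left]
        intro v hv hv'
        exact hab ((mem_filter.1 hv).2.symm.trans (mem_filter.1 hv').2)
    have h4 : (T.card + 1) * ∑ f ∈ Om G L', cnt W y f ≤ (T.card + 1) * (Om G L').card := by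
      rw [h2]
      calc ∑ f ∈ Om G L', ∑ z ∈ insert y T, cnt W z f ≤ ∑ f ∈ Om G L', W.card :=
            sum_le_sum fun f _ => h3 f
        _ = (Om G L').card * W.card := by rw [sum_const, smul_eq_mul]
        _ ≤ (Om G L').card * (T.card + 1) := Nat.mul_le_mul_left _ hc
        _ = _ := mul_comm _ _
    exact Nat.le_of_mul_le_mul_left h4 (Nat.succ_pos _)
  have h5 : (Om G L' \ Om G L).card ≤ ∑ f ∈ Om G L' \ Om G L, cnt W y f := by
    rw [card_eq_sum_ones]
    refine sum_le_sum fun f hf => ?_
    rw [mem_sdiff, mem_Om, mem_Om] at hf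
    obtain ⟨⟨h6, h7⟩, h8⟩ := hf
    have h9 : ∃ v, f v ∉ L v := by
      by_contra hcon
      push Not at hcon
      exact h8 ⟨hcon, h7⟩
    obtain ⟨v, hv⟩ := h9
    have h10 := h6 v
    simp only [hL'] at h10
    split_ifs at h10 with h11
    · have h12 : f v = y := by
        rcases mem_insert.1 h10 with h | h
        · exact h
        · exact absurd h hv
      exact card_pos.2 ⟨v, mem_filter.2 ⟨h11, h12⟩⟩
    · exact absurd h10 hv
  have h6 : ∑ f ∈ Om G L' \ Om G L, cnt W y f + ∑ f ∈ Om G L, cnt W y f =
      ∑ f ∈ Om G L', cnt W y f := sum_sdiff hsub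
  have h7 : (Om G L' \ Om G L).card + (Om G L).card = (Om G L').card := by
    rw [card_sdiff_add_card_eq_card hsub]
  omega

theorem iso_del {G : SimpleGraph V} {W : Finset V} (hiso : ∀ a b, G.Adj a b → a ∈ W) (v : V) :
    ∀ a b, (del G v).Adj a b → a ∈ W.erase v := by
  intro a b h
  exact mem_erase.2 ⟨h.2.1, hiso a b h.1⟩

theorem sub_pin {G : SimpleGraph V} {L : V → Finset C} {W : Finset V} {T : Finset C} {v : V} {c : C}
    (hT : ∀ u ∈ W, T ⊆ L u) (hc : c ∉ T) : ∀ u ∈ W.erase v, T ⊆ pin G L v c u := by
  intro u hu z hz
  rw [mem_erase] at hu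
  simp only [pin]
  rw [if_neg hu.1]
  split_ifs
  · exact mem_erase.2 ⟨fun h => hc (h ▸ hz), hT u hu.2 hz⟩
  · exact hT u hu.2 hz

theorem sub_era {L : V → Finset C} {W : Finset V} {T : Finset C} {v : V} {c : C}
    (hT : ∀ u ∈ W, T ⊆ L u) (hc : c ∉ T) : ∀ u ∈ W, T ⊆ era L v c u := by
  intro u hu z hz
  simp only [era]
  split_ifs
  · exact mem_erase.2 ⟨fun h => hc (h ▸ hz), hT u hu hz⟩
  · exact hT u hu hz

omit [Fintype V] [Fintype C] in
theorem cnt_mono {W W' : Finset V} (h : W ⊆ W') (c : C) (f : V → C) : cnt W c f ≤ cnt W' c f :=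
  card_le_card (filter_subset_filter _ h)

/-- If the colour `y` can be used only where `x` can, it is used at most as often on the average. -/
theorem cmp_sub (n : ℕ) : ∀ (G : SimpleGraph V) (L : V → Finset C) (W : Finset V) (T : Finset C)
    (x y : C), (∀ a b, G.Adj a b → a ∈ W) → (∀ v ∈ W, T ⊆ L v) → x ∉ T → y ∉ T → x ≠ y →
    W.card ≤ T.card + 2 → (∀ v ∈ W, y ∈ L v → x ∈ L v) →
    (W.filter (fun v => x ∈ L v ∧ y ∉ L v)).card ≤ n →
    ∑ f ∈ Om G L, cnt W y f ≤ ∑ f ∈ Om G L, cnt W x f := by
  induction n with
  | zero =>
    intro G L W T x y hiso hT hx hy hxy hc hsub hn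
    have h0 : W.filter (fun v => x ∈ L v ∧ y ∉ L v) = ∅ := by
      rw [← card_eq_zero]; omega
    refine (swap_sum G L W y x hiso (fun v hv => ⟨hsub v hv, fun h => ?_⟩)).le
    by_contra hcon
    have : v ∈ W.filter (fun v => x ∈ L v ∧ y ∉ L v) := mem_filter.2 ⟨hv, h, hcon⟩
    rw [h0] at this
    simp at this
  | succ n ih =>
    intro G L W T x y hiso hT hx hy hxy hc hsub hn
    by_cases he : W.filter (fun v => x ∈ L v ∧ y ∉ L v) = ∅
    · exact ih G L W T x y hiso hT hx hy hxy hc hsub (by rw [he]; simp)
    · obtain ⟨v, hv⟩ := nonempty_iff_ne_empty.2 he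
      rw [mem_filter] at hv
      obtain ⟨hvW, hvx, hvy⟩ := hv
      rw [sum_split G L v x hvx, sum_split G L v x hvx]
      apply Nat.add_le_add
      · have h1 : ∑ f ∈ Om (del G v) (pin G L v x), cnt (W.erase v) y f ≤
            (Om (del G v) (pin G L v x)).card := by
          refine avg_le_one _ _ _ T y (iso_del hiso v) (sub_pin hT hx) hy ?_
          rw [card_erase_of_mem hvW]; omega
        have hv' : ∀ f ∈ Om (del G v) (pin G L v x), f v = x := by
          intro f hf
          have := (mem_Om.1 hf).1 v
          simpa [pin] using this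
        have h2 : ∑ f ∈ Om (del G v) (pin G L v x), cnt W y f =
            ∑ f ∈ Om (del G v) (pin G L v x), cnt (W.erase v) y f := by
          refine sum_congr rfl fun f hf => ?_
          unfold cnt
          congr 1
          ext u
          simp only [mem_filter, mem_erase]
          constructor
          · rintro ⟨h3, h4⟩
            refine ⟨⟨fun h5 => hxy ?_, h3⟩, h4⟩
            rw [← hv' f hf, ← h5, h4]
          · rintro ⟨⟨_, h3⟩, h4⟩
            exact ⟨h3, h4⟩
        rw [h2]
        refine h1.trans ?_
        rw [card_eq_sum_ones]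
        refine sum_le_sum fun f hf => ?_
        exact card_pos.2 ⟨v, mem_filter.2 ⟨hvW, hv' f hf⟩⟩
      · refine ih G (era L v x) W T x y hiso (sub_era hT hx) hx hy hxy hc ?_ ?_
        · intro u hu h1
          simp only [era] at h1 ⊢
          split_ifs at h1 ⊢ with h2
          · exact absurd (mem_erase.1 h1).2 (by rw [h2]; exact hvy)
          · exact hsub u hu h1
        · have h1 : W.filter (fun u => x ∈ era L v x u ∧ y ∉ era L v x u) ⊆
              (W.filter (fun v => x ∈ L v ∧ y ∉ L v)).erase v := by
            intro u hu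
            rw [mem_filter] at hu
            simp only [era] at hu
            rw [mem_erase, mem_filter]
            split_ifs at hu with h2
            · simp at hu
            · exact ⟨h2, hu.1, hu.2⟩
          have h2 := card_le_card h1
          rw [card_erase_of_mem (mem_filter.2 ⟨hvW, hvx, hvy⟩)] at h2
          omega

/-- Among the vertices where `x` can be used every colour `y` is used at most as often as `x` on the
average. -/
theorem cmp_all (n : ℕ) : ∀ (G : SimpleGraph V) (L : V → Finset C) (W : Finset V) (T : Finset C)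
    (x y : C), (∀ a b, G.Adj a b → a ∈ W) → (∀ v ∈ W, T ⊆ L v) → x ∉ T → y ∉ T → x ≠ y →
    W.card ≤ T.card + 2 →
    (W.filter (fun v => y ∈ L v ∧ x ∉ L v)).card ≤ n →
    ∑ f ∈ Om G L, cnt (W.filter (fun v => x ∈ L v)) y f ≤ ∑ f ∈ Om G L, cnt W x f := by
  induction n with
  | zero =>
    intro G L W T x y hiso hT hx hy hxy hc hn
    have h0 : W.filter (fun v => y ∈ L v ∧ x ∉ L v) = ∅ := by
      rw [← card_eq_zero]; omega
    have hsub : ∀ v ∈ W, y ∈ L v → x ∈ L v := by
      intro v hv h
      by_contra hcon
      have : v ∈ W.filter (fun v => y ∈ L v ∧ x ∉ L v) := mem_filter.2 ⟨hv, h, hcon⟩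
      rw [h0] at this
      simp at this
    refine le_trans (sum_le_sum fun f _ => ?_)
      (cmp_sub _ G L W T x y hiso hT hx hy hxy hc hsub le_rfl)
    exact cnt_mono (filter_subset _ _) y f
  | succ n ih =>
    intro G L W T x y hiso hT hx hy hxy hc hn
    by_cases he : W.filter (fun v => y ∈ L v ∧ x ∉ L v) = ∅
    · exact ih G L W T x y hiso hT hx hy hxy hc (by rw [he]; simp)
    · obtain ⟨v, hv⟩ := nonempty_iff_ne_empty.2 he
      rw [mem_filter] at hv
      obtain ⟨hvW, hvy, hvx⟩ := hv
      rw [sum_split G L v y hvy, sum_split G L v y hvy]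
      apply Nat.add_le_add
      · -- `v` has the colour `y`
        have hv' : ∀ f ∈ Om (del G v) (pin G L v y), f v = y := by
          intro f hf
          have := (mem_Om.1 hf).1 v
          simpa [pin] using this
        have hX : (W.erase v).filter (fun u => x ∈ pin G L v y u) = W.filter (fun u => x ∈ L u) := by
          ext u
          rw [mem_filter, mem_filter, mem_erase]
          constructor
          · rintro ⟨⟨h1, h2⟩, h3⟩
            simp only [pin] at h3
            rw [if_neg h1] at h3
            split_ifs at h3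
            · exact ⟨h2, (mem_erase.1 h3).2⟩
            · exact ⟨h2, h3⟩
          · rintro ⟨h1, h2⟩
            have h3 : u ≠ v := fun h => hvx (h ▸ h2)
            refine ⟨⟨h3, h1⟩, ?_⟩
            simp only [pin]
            rw [if_neg h3]
            split_ifs
            · exact mem_erase.2 ⟨hxy, h2⟩
            · exact h2
        have h1 := ih (del G v) (pin G L v y) (W.erase v) T x y (iso_del hiso v)
          (sub_pin hT hy) hx hy hxy (by rw [card_erase_of_mem hvW]; omega) (by
            have h1 : (W.erase v).filter (fun u => y ∈ pin G L v y u ∧ x ∉ pin G L v y u) ⊆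
              (W.filter (fun v => y ∈ L v ∧ x ∉ L v)).erase v := by
              intro u hu
              rw [mem_filter, mem_erase] at hu
              obtain ⟨⟨h2, h3⟩, h4, h5⟩ := hu
              simp only [pin] at h4 h5
              rw [if_neg h2] at h4 h5
              rw [mem_erase, mem_filter]
              split_ifs at h4 h5
              · simp at h4
              · exact ⟨h2, h3, h4, h5⟩
            have h2 := card_le_card h1
            rw [card_erase_of_mem (mem_filter.2 ⟨hvW, hvy, hvx⟩)] at h2
            omega)
        rw [hX] at h1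
        refine h1.trans (sum_le_sum fun f _ => cnt_mono (erase_subset _ _) x f)
      · -- `v` does not have the colour `y`
        have hX : W.filter (fun u => x ∈ era L v y u) = W.filter (fun u => x ∈ L u) := by
          ext u
          rw [mem_filter, mem_filter]
          constructor
          · rintro ⟨h1, h2⟩
            simp only [era] at h2
            split_ifs at h2
            · exact ⟨h1, (mem_erase.1 h2).2⟩
            · exact ⟨h1, h2⟩
          · rintro ⟨h1, h2⟩
            refine ⟨h1, ?_⟩
            simp only [era]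
            split_ifs
            · exact mem_erase.2 ⟨hxy, h2⟩
            · exact h2
        have h1 := ih G (era L v y) W T x y hiso (sub_era hT hy) hx hy hxy hc (by
            have h1 : W.filter (fun u => y ∈ era L v y u ∧ x ∉ era L v y u) ⊆
              (W.filter (fun v => y ∈ L v ∧ x ∉ L v)).erase v := by
              intro u hu
              rw [mem_filter] at hu
              obtain ⟨h3, h4, h5⟩ := hu
              simp only [era] at h4 h5
              rw [mem_erase, mem_filter]
              split_ifs at h4 h5 with h6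
              · simp at h4
              · exact ⟨h6, h3, h4, h5⟩
            have h2 := card_le_card h1
            rw [card_erase_of_mem (mem_filter.2 ⟨hvW, hvy, hvx⟩)] at h2
            omega)
        rw [hX] at h1
        exact h1

/-- **The lower bound for the use of a colour.** -/
theorem use_lower (G : SimpleGraph V) (L : V → Finset C) (W : Finset V) (T : Finset C) (x : C)
    (hiso : ∀ a b, G.Adj a b → a ∈ W) (hT : ∀ v ∈ W, T ⊆ L v) (hx : x ∉ T)
    (hc : W.card ≤ T.card + 1) :
    (W.filter (fun v => x ∈ L v)).card * (Om G L).card ≤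
      Fintype.card C * ∑ f ∈ Om G L, cnt W x f := by
  have h1 : ∀ f : V → C, ∑ y : C, cnt (W.filter (fun v => x ∈ L v)) y f =
      (W.filter (fun v => x ∈ L v)).card := by
    intro f
    unfold cnt
    rw [← card_eq_sum_card_fiberwise (f := f) (t := univ)]
    intro v _
    simp
  have h2 : ∀ y : C, ∑ f ∈ Om G L, cnt (W.filter (fun v => x ∈ L v)) y f ≤
      ∑ f ∈ Om G L, cnt W x f := by
    intro y
    by_cases hxy : x = y
    · subst hxy
      exact sum_le_sum fun f _ => cnt_mono (filter_subset _ _) _ f
    · refine cmp_all _ G L W (T.erase y) x y hiso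
        (fun v hv => (erase_subset _ _).trans (hT v hv))
        (fun h => hx (mem_of_mem_erase h)) (notMem_erase _ _) hxy ?_ le_rfl
      have := pred_card_le_card_erase (s := T) (a := y)
      omega
  calc (W.filter (fun v => x ∈ L v)).card * (Om G L).card
      = ∑ f ∈ Om G L, ∑ y : C, cnt (W.filter (fun v => x ∈ L v)) y f := by
        rw [sum_congr rfl fun f _ => h1 f, sum_const, smul_eq_mul, mul_comm]
    _ = ∑ y : C, ∑ f ∈ Om G L, cnt (W.filter (fun v => x ∈ L v)) y f := sum_comm
    _ ≤ ∑ y : C, ∑ f ∈ Om G L, cnt W x f := sum_le_sum fun y _ => h2 y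
    _ = _ := by rw [sum_const, smul_eq_mul, card_univ]

/-- Removing a colour from the lists of `n` vertices. -/
theorem remove (n : ℕ) : ∀ (G : SimpleGraph V) (L : V → Finset C) (T : Finset C) (x : C),
    (∀ v, T ⊆ L v) → x ∉ T → Fintype.card V ≤ T.card + 1 →
    (univ.filter (fun v => x ∈ L v)).card = n →
    ((Om G (fun v => (L v).erase x)).card : ℝ) ≤
      (1 - 1 / (Fintype.card C : ℝ)) ^ n * ((Om G L).card : ℝ) := by
  induction n with
  | zero =>
    intro G L T x hT hx hc hn
    have h0 : (fun v => (L v).erase x) = L := by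
      funext v
      refine erase_eq_of_notMem fun h => ?_
      have : v ∈ univ.filter (fun v => x ∈ L v) := mem_filter.2 ⟨mem_univ _, h⟩
      rw [card_eq_zero.1 hn] at this
      simp at this
    rw [h0]
    simp
  | succ n ih =>
    intro G L T x hT hx hc hn
    have hq : 0 < (Fintype.card C : ℝ) := by
      have : 0 < Fintype.card C := Fintype.card_pos_iff.2 ⟨x⟩
      exact_mod_cast this
    have h1 := use_lower G L univ T x (fun _ _ _ => mem_univ _) (fun v _ => hT v) hx
      (by rw [card_univ]; exact hc)
    -- the sum over the colourings is the sum over the vertices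
    have h2 : ∑ f ∈ Om G L, cnt univ x f =
        ∑ v ∈ univ.filter (fun v => x ∈ L v), ((Om G L).filter (fun f => f v = x)).card := by
      unfold cnt
      simp_rw [card_filter]
      rw [sum_comm]
      symm
      apply sum_subset (filter_subset _ _)
      intro v _ hv
      rw [sum_eq_zero]
      intro f hf
      rw [if_neg]
      intro h
      exact hv (mem_filter.2 ⟨mem_univ _, h ▸ (mem_Om.1 hf).1 v⟩)
    have h3 : ∃ v ∈ univ.filter (fun v => x ∈ L v),
        (Om G L).card ≤ Fintype.card C * ((Om G L).filter (fun f => f v = x)).card := by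
      by_contra hcon
      push Not at hcon
      have hne : (univ.filter (fun v => x ∈ L v)).Nonempty := by
        rw [← card_pos]; omega
      have h4 := sum_lt_sum_of_nonempty hne hcon
      rw [← mul_sum, ← h2, sum_const, smul_eq_mul] at h4
      omega
    obtain ⟨v, hv, h4⟩ := h3
    have hvx : x ∈ L v := (mem_filter.1 hv).2
    have h5 : (Om G L).card = ((Om G L).filter (fun f => f v = x)).card +
        (Om G (era L v x)).card := by
      rw [← era_eq]
      exact (card_filter_add_card_filter_not _).symm
    have h6 := ih G (era L v x) T x (fun u => by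
      have := sub_era (W := univ) (v := v) (c := x) (fun u _ => hT u) hx u (mem_univ _)
      exact this) hx hc (by
      have : univ.filter (fun u => x ∈ era L v x u) = (univ.filter (fun u => x ∈ L u)).erase v := by
        ext u
        rw [mem_filter, mem_erase, mem_filter]
        simp only [mem_univ, true_and, era]
        split_ifs with h
        · simp [h]
        · simp [h]
      rw [this, card_erase_of_mem hv, hn]
      rfl)
    have h7 : (fun u => (era L v x u).erase x) = fun u => (L u).erase x := by
      funext u
      simp only [era]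
      split_ifs
      · simp
      · rfl
    rw [h7] at h6
    refine h6.trans ?_
    rw [pow_succ, mul_assoc]
    have hp : 0 ≤ (1 - 1 / (Fintype.card C : ℝ)) := by
      rw [sub_nonneg, div_le_one hq]
      have : 1 ≤ Fintype.card C := Fintype.card_pos_iff.2 ⟨x⟩
      exact_mod_cast this
    refine mul_le_mul_of_nonneg_left ?_ (pow_nonneg hp _)
    have h8 : ((Om G L).card : ℝ) ≤ Fintype.card C * (((Om G L).filter (fun f => f v = x)).card : ℝ) := by
      exact_mod_cast h4
    have h9 : ((Om G L).card : ℝ) = (((Om G L).filter (fun f => f v = x)).card : ℝ) +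
        ((Om G (era L v x)).card : ℝ) := by exact_mod_cast h5
    have h10 : ((Om G L).card : ℝ) / Fintype.card C ≤ (((Om G L).filter (fun f => f v = x)).card : ℝ) := by
      rw [div_le_iff₀ hq]
      linarith
    have h11 : (1 - 1 / (Fintype.card C : ℝ)) * ((Om G L).card : ℝ) =
        ((Om G L).card : ℝ) - ((Om G L).card : ℝ) / Fintype.card C := by ring
    rw [h11]
    linarith

end

end Pool.Agent.V8H20.CR
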